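import Pool.Agent.H.MP_6eb00f_an.A

namespace Pool.Agent.Results.MP_6eb00f_an.No

open Finset Matrix Pool.Agent.H.MP_6eb00f_an

theorem result : ∃ (m n d : ℕ) (A : Fin n → Matrix (Fin d) (Fin d) ℝ) (v : Fin d → ℝ) (μ : ℝ),
    1 ≤ m ∧ m ≤ n ∧ 1 ≤ d ∧ (∀ i, (A i).PosSemidef) ∧
    ((n : ℝ) • (1 : Matrix (Fin d) (Fin d) ℝ) - ∑ i, A i).PosSemidef ∧ v ≠ 0 ∧
    (∑ j : Fin m → Fin n with Function.Injective j, (List.ofFn fun t => A (j t)).prod) *ᵥ v =
      μ • v ∧ (n.factorial : ℝ) / (n - m).factorial < μ := by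
  refine ⟨10, 10, 9, B, Pi.single 0 1, 252 * (15675 / 128) ^ 2, by norm_num, le_rfl, by norm_num,
    B_psd, ?_, by simp, ?_, by norm_num [Nat.factorial]⟩
  · rw [B_sum, Nat.cast_ofNat, sub_self]
    exact PosSemidef.zero
  · have := Q_eq B 10 univ
    simp only [mem_univ, implies_true, and_true] at this
    rw [← this, B_Q]
    funext i
    obtain ⟨⟨a, b⟩, rfl⟩ := (finProdFinEquiv (m := 3) (n := 3)).surjective i
    have z : (finProdFinEquiv (m := 3) (n := 3)).symm (0 : Fin 9) = (0, 0) := by decide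
    simp only [mulVec_single_one, col_apply, Matrix.smul_apply, kr, reindex_apply, submatrix_apply,
      Equiv.symm_apply_apply, z, kroneckerMap_apply, map_apply, q1, q2, Pi.smul_apply]
    fin_cases a <;> fin_cases b <;> simp [Pi.single_apply, finProdFinEquiv] <;> norm_num

end Pool.Agent.Results.MP_6eb00f_an.No
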